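import Pool.Agent.Run7.h907.BL.FinT

set_option autoImplicit false

/-!
# The billiard in the triangle with the sides 3, 4, 5: position densities of invariant sets

Let `T` be the triangle with the vertices `0`, `4`, `3 i`, whose sides are 4, 5, 3.

* If `f` is a bounded measurable function of the state (position, direction) which is invariant under
  the billiard flow, then the variance over the positions of its mean over the directions is at most
  one fifth of its variance on the phase space.
* If `A` is an invariant set of the proportion `a`, and `A z` is the part of the directions at the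
  position `z` which belong to `A`, then the mean square of `A z - a` over the positions is at most
  `a (1 - a) / 5`.

Proof. Let `e m` be the energy of the `m`-th Fourier mode of an invariant function of mean zero in the
direction. In all triangles `e 0 = e 2`, and `e 2 - e 4` is zero or has the sign of
`sin (3 α) sin (3 β) sin (3 γ)`, which is negative for this triangle. So
`5 e 0 ≤ e 0 + 2 e 2 + 2 e 4`, and this is at most the whole energy.
-/

namespace Pool.Agent.Results.MP_0fc3df_an.PositionFifth

open Complex Set MeasureTheory Pool.Agent.W780.PG Pool.Agent.W780.BB Pool.Agent.TH103.BL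
  Run7.h907.BL

open scoped Real

theorem result :
    (IsConvexPolygon T345 ∧ ‖T345 1 - T345 0‖ = 4 ∧ ‖T345 2 - T345 1‖ = 5 ∧
      ‖T345 0 - T345 2‖ = 3) ∧
    (∀ f : ℂ × ℝ → ℝ, Measurable f → (∃ C : ℝ, ∀ x, |f x| ≤ C) → IsInvariantFun T345 f →
      5 * ∫ z in region T345, (posMean f z - phaseMean T345 f) ^ 2 ≤
        ∫ z in region T345, posMean (fun x => (f x - phaseMean T345 f) ^ 2) z) ∧
    (∀ A : Set (ℂ × ℝ), MeasurableSet A → IsInvariant T345 A →
      5 * ∫ z in region T345, (density A z - proportion T345 A) ^ 2 ≤
        proportion T345 A * (1 - proportion T345 A) * volume.real (region T345)) :=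
  ⟨⟨t345_convex, t345_dist⟩,
    fun _ hf hb hI => fifth_funs Pool.Agent.N440.LB.parts t345_convex t345_neg hf hb hI,
    fun _ hA hI => fifth_sets Pool.Agent.N440.LB.parts t345_convex t345_neg hA hI⟩

end Pool.Agent.Results.MP_0fc3df_an.PositionFifth
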