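import Pool.Agent.Run7.h907.BL.FinT

set_option autoImplicit false

/-!
# The billiard in the triangle with the sides 3, 4, 5: reversal of the direction

Let `T` be the triangle with the vertices `0`, `4`, `3 i`, whose sides are 4, 5, 3. Every measurable
function of the state (position, direction) which is invariant under the billiard flow is unchanged,
up to a null set, if the direction is reversed, and every invariant set contains with a state its
reversal, up to a null set. So it would be enough for ergodicity to consider states up to reversal,
and almost every orbit lies in the same invariant sets as the orbit which runs through it backwards.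

Proof. For an invariant function of a triangle with the angles `α`, `β`, `γ` the energies of the
Fourier modes `k - 1` and `k + 1` in the direction are equal if `sin (k α) sin (k β) sin (k γ) = 0`.
Here one angle is `π / 2`, so this holds for all even `k`: all odd modes have the same energy, which
must be zero.
-/

namespace Pool.Agent.Results.MP_0fc3df_an.TimeReversal

open Complex Set MeasureTheory Pool.Agent.W780.PG Pool.Agent.W780.BB Pool.Agent.TH103.BL
  Run7.h907.BL

open scoped Real

theorem result :
    (IsConvexPolygon T345 ∧ ‖T345 1 - T345 0‖ = 4 ∧ ‖T345 2 - T345 1‖ = 5 ∧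
      ‖T345 0 - T345 2‖ = 3) ∧
    (∀ f : ℂ × ℝ → ℝ, Measurable f → IsInvariantFun T345 f →
      ∀ᵐ x : ℂ × ℝ, x.1 ∈ region T345 → f (x.1, x.2 + π) = f x) ∧
    (∀ A : Set (ℂ × ℝ), MeasurableSet A → IsInvariant T345 A →
      ∀ᵐ x : ℂ × ℝ, x.1 ∈ region T345 → ((x.1, x.2 + π) ∈ A ↔ x ∈ A)) := by
  have hab : ∀ i : Fin (0 + 3), i ≠ 1 → i ≠ 2 → ang T345 i = π / 2 := by
    intro i h1 h2
    have hi : i = 0 ∨ i = 1 ∨ i = 2 := by fin_cases i <;> simp
    rcases hi with rfl | rfl | rfl
    · exact t345_sin.2.2.2
    · exact absurd rfl h1
    · exact absurd rfl h2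
  exact ⟨⟨t345_convex, t345_dist⟩,
    fun _ hf hI => rev_all Pool.Agent.N440.LB.parts t345_convex hab hf hI,
    fun _ hA hI => rev_sets Pool.Agent.N440.LB.parts t345_convex hab hA hI⟩

end Pool.Agent.Results.MP_0fc3df_an.TimeReversal
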